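import Pool.Agent.Y571.UB.Stm

/-!
# UB-COUNT: words in which no letter occurs exactly once (helper484)
-/

set_option autoImplicit false

open Finset
open scoped Nat

namespace Pool.Agent.Y484.UB

open Pool.Agent.Y571.UB

theorem card_letters {n k : ℕ} (w : (Fin n → Fin k) × (Fin n → Fin k))
    (h : ∀ i : Fin k, (univ.filter fun x => w.1 x = i).card +
      (univ.filter fun x => w.2 x = i).card ≠ 1) :
    (univ.image w.1 ∪ univ.image w.2).card ≤ n := by
  set I := univ.image w.1 ∪ univ.image w.2 with hI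
  have h1 : n = ∑ i ∈ I, (univ.filter fun x => w.1 x = i).card := by
    have h0 := Finset.card_eq_sum_card_fiberwise (f := w.1) (s := (univ : Finset (Fin n)))
      (t := I) (by
        intro x _
        exact mem_union_left _ (mem_image_of_mem _ (mem_univ x)))
    rwa [card_univ, Fintype.card_fin] at h0
  have h2 : n = ∑ i ∈ I, (univ.filter fun x => w.2 x = i).card := by
    have h0 := Finset.card_eq_sum_card_fiberwise (f := w.2) (s := (univ : Finset (Fin n)))
      (t := I) (by
        intro x _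
        exact mem_union_right _ (mem_image_of_mem _ (mem_univ x)))
    rwa [card_univ, Fintype.card_fin] at h0
  have h3 : ∀ i ∈ I, 2 ≤ (univ.filter fun x => w.1 x = i).card +
      (univ.filter fun x => w.2 x = i).card := by
    intro i hi
    have h4 : 1 ≤ (univ.filter fun x => w.1 x = i).card +
        (univ.filter fun x => w.2 x = i).card := by
      rcases mem_union.1 hi with h' | h'
      · obtain ⟨x, _, hx⟩ := mem_image.1 h'
        have h5 : 0 < (univ.filter fun x => w.1 x = i).card :=
          card_pos.2 ⟨x, mem_filter.2 ⟨mem_univ _, hx⟩⟩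
        omega
      · obtain ⟨x, _, hx⟩ := mem_image.1 h'
        have h5 : 0 < (univ.filter fun x => w.2 x = i).card :=
          card_pos.2 ⟨x, mem_filter.2 ⟨mem_univ _, hx⟩⟩
        omega
    have h6 := h i
    omega
  have h5 : ∑ i ∈ I, 2 ≤ ∑ i ∈ I, ((univ.filter fun x => w.1 x = i).card +
      (univ.filter fun x => w.2 x = i).card) := sum_le_sum h3
  rw [sum_add_distrib, ← h1, ← h2, sum_const, smul_eq_mul] at h5
  omega

theorem bad_le_all (n k : ℕ) : bad n k ≤ k ^ n * k ^ n := by
  unfold bad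
  refine (card_le_univ _).trans ?_
  rw [Fintype.card_prod, Fintype.card_fun, Fintype.card_fin, Fintype.card_fin]

theorem bad_le {n k : ℕ} (hnk : n ≤ k) : bad n k ≤ k.choose n * (n ^ n * n ^ n) := by
  unfold bad
  have hsub : (univ.filter fun w : (Fin n → Fin k) × (Fin n → Fin k) =>
      ∀ i : Fin k, (univ.filter fun x => w.1 x = i).card + (univ.filter fun x => w.2 x = i).card
        ≠ 1) ⊆ (powersetCard n (univ : Finset (Fin k))).biUnion (fun S =>
        (Fintype.piFinset fun _ : Fin n => S) ×ˢ (Fintype.piFinset fun _ : Fin n => S)) := by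
    intro w hw
    have h1 := card_letters w (mem_filter.1 hw).2
    obtain ⟨S, hS, hcard⟩ := Finset.exists_superset_card_eq h1 (by rw [Fintype.card_fin]; exact hnk)
    rw [mem_biUnion]
    refine ⟨S, mem_powersetCard.2 ⟨subset_univ _, hcard⟩, ?_⟩
    rw [mem_product, Fintype.mem_piFinset, Fintype.mem_piFinset]
    exact ⟨fun x => hS (mem_union_left _ (mem_image_of_mem _ (mem_univ x))),
      fun x => hS (mem_union_right _ (mem_image_of_mem _ (mem_univ x)))⟩
  refine (card_le_card hsub).trans (card_biUnion_le.trans ?_)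
  have h2 : ∀ S ∈ powersetCard n (univ : Finset (Fin k)),
      ((Fintype.piFinset fun _ : Fin n => S) ×ˢ (Fintype.piFinset fun _ : Fin n => S)).card =
        n ^ n * n ^ n := by
    intro S hS
    have h3 : (Fintype.piFinset fun _ : Fin n => S).card = n ^ n := by
      rw [Fintype.card_piFinset, prod_const, card_univ, Fintype.card_fin,
        (mem_powersetCard.1 hS).2]
    rw [card_product, h3]
  rw [sum_congr rfl h2, sum_const, smul_eq_mul, card_powersetCard, card_univ, Fintype.card_fin]

theorem count : S_COUNT := by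
  intro n k hn
  have he : (1 : ℝ) ≤ Real.exp 1 := Real.one_le_exp (by norm_num)
  have hn0 : (0 : ℝ) ≤ n := Nat.cast_nonneg n
  have hk0 : (0 : ℝ) ≤ k := Nat.cast_nonneg k
  rcases le_total k n with h | h
  · have h1 : (bad n k : ℝ) ≤ (k : ℝ) ^ n * (k : ℝ) ^ n := by
      exact_mod_cast bad_le_all n k
    have h2 : (k : ℝ) ≤ n := by exact_mod_cast h
    refine h1.trans ?_
    rw [← mul_pow]
    refine pow_le_pow_left₀ (by positivity) ?_ n
    refine mul_le_mul_of_nonneg_right ?_ hk0
    nlinarith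
  · have h1 : (bad n k : ℝ) ≤ (k.choose n : ℝ) * ((n : ℝ) ^ n * (n : ℝ) ^ n) := by
      exact_mod_cast bad_le h
    have h2 : (k.choose n : ℝ) ≤ (k : ℝ) ^ n / (n ! : ℝ) := Nat.choose_le_pow_div n k
    have h3 : (n : ℝ) ^ n / (n ! : ℝ) ≤ Real.exp 1 ^ n := by
      have h4 := Real.pow_div_factorial_le_exp (n : ℝ) hn0 n
      have h5 : Real.exp (n : ℝ) = Real.exp 1 ^ n := by
        rw [← Real.exp_nat_mul, mul_one]
      rwa [h5] at h4
    calc (bad n k : ℝ) ≤ (k.choose n : ℝ) * ((n : ℝ) ^ n * (n : ℝ) ^ n) := h1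
      _ ≤ ((k : ℝ) ^ n / (n ! : ℝ)) * ((n : ℝ) ^ n * (n : ℝ) ^ n) := by gcongr
      _ = (k : ℝ) ^ n * ((n : ℝ) ^ n / (n ! : ℝ)) * (n : ℝ) ^ n := by ring
      _ ≤ (k : ℝ) ^ n * Real.exp 1 ^ n * (n : ℝ) ^ n := by gcongr
      _ = (Real.exp 1 * n * k) ^ n := by rw [mul_pow, mul_pow]; ring

end Pool.Agent.Y484.UB
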